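import Pool.Agent.N554.HKS.Def

/-!
# Palindromic primitive morphic words (Harju–Vesti–Zamboni): definitions
-/

set_option autoImplicit false

namespace Pool.Agent.N554.HVZ

open Pool.Agent.N554.HKS (ext seg Lang FixedPoint Primitive)

/-- Class `P`: there is a palindrome `p` such that, for every letter `a`, `p` is a prefix of `φ(a)`
and `φ(a) p` is a palindrome. -/
def InClassP {A B : Type*} (φ : A → List B) : Prop :=
  ∃ p : List B, p.reverse = p ∧ ∀ a, p <+: φ a ∧ (φ a ++ p).reverse = φ a ++ p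

/-- The morphisms `φ` and `ψ` are conjugate: there is a word `w` with `φ(a) w = w ψ(a)` for all
letters `a`, or `ψ(a) w = w φ(a)` for all letters `a`. -/
def Conj {A B : Type*} (φ ψ : A → List B) : Prop :=
  ∃ w : List B, (∀ a, φ a ++ w = w ++ ψ a) ∨ ∀ a, ψ a ++ w = w ++ φ a

/-- `φ` is conjugate to a morphism in class `P`. -/
def ConjClassP {A B : Type*} (φ : A → List B) : Prop := ∃ π : A → List B, Conj φ π ∧ InClassP π

/-- The set of the factors of `ψ(v)`. -/
def LangImage {A B : Type*} (ψ : A → List B) (v : ℕ → A) : Set (List B) :=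
  {s | ∃ n, s <:+: ext ψ (seg v 0 n)}

/-- The infinite word `u` is `μ(d)`: the images of the prefixes of `d` are prefixes of `u`, of
unbounded lengths. -/
def IsImage {A B : Type*} (μ : A → List B) (d : ℕ → A) (u : ℕ → B) : Prop :=
  (∀ n, ∃ m, ext μ (seg d 0 n) = seg u 0 m) ∧ ∀ L, ∃ n, L ≤ (ext μ (seg d 0 n)).length

/-- Primitive morphic words: `μ(d)` with `d` a fixed point of a primitive morphism over a finite
alphabet. -/
def PrimitiveMorphic {B : Type*} (u : ℕ → B) : Prop :=
  ∃ (A : Type) (_ : Finite A) (φ : A → List A) (d : ℕ → A) (μ : A → List B),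
    Primitive φ ∧ FixedPoint φ d ∧ IsImage μ d u

/-! ### The data of the counterexample -/

/-- The morphism `0 → 0001`, `1 → 0111`. -/
def phi0 : Fin 2 → List (Fin 2) := ![[0, 0, 0, 1], [0, 1, 1, 1]]

/-- The fixed point of `phi0` which starts with `0`. -/
def d0 : ℕ → Fin 2
  | 0 => 0
  | (n + 1) => if (n + 1) % 4 = 0 then 0 else if (n + 1) % 4 = 3 then 1 else d0 ((n + 1) / 4)
decreasing_by exact Nat.div_lt_self (Nat.succ_pos n) (by norm_num)

/-- The morphism `0 → abc`, `1 → cba`, with `a = 0`, `b = 1`, `c = 2`. -/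
def mu0 : Fin 2 → List (Fin 3) := ![[0, 1, 2], [2, 1, 0]]

/-- The word `u0 = mu0(d0)`. -/
def u0 (n : ℕ) : Fin 3 := (mu0 (d0 (n / 3))).getD (n % 3) 0

/-- `+1` for the word `ab`, `-1` for the word `ba`. -/
def g (x y : Fin 3) : ℤ := if x = 0 ∧ y = 1 then 1 else if x = 1 ∧ y = 0 then -1 else 0

/-- The number of occurrences of `ab` minus the number of occurrences of `ba`. -/
def N : List (Fin 3) → ℤ
  | [] => 0
  | [_] => 0
  | (x :: y :: t) => g x y + N (y :: t)

/-- The words `ψ(φ^n(a))`. -/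
def F {A B : Type*} (φ : A → List A) (ψ : A → List B) (n : ℕ) (a : A) : List B :=
  ext ψ ((ext φ)^[n] [a])

/-- The words `w_m = mu0(phi0^m(0))`. -/
def W (m : ℕ) : List (Fin 3) := F phi0 mu0 m 0

/-! ### The statements of the leaves -/

/-- Images of letters under class `P` morphisms are rotations of their reversals. -/
def ROT : Prop := ∀ (A B : Type) (φ : A → List A) (ψ : A → List B), ConjClassP φ → ConjClassP ψ →
  ∀ (n : ℕ) (a : A), (F φ ψ n a).IsRotated (F φ ψ n a).reverse

/-- The function `N` is small on the words that are rotations of their reversals, and it is almost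
additive. -/
def NL : Prop := (∀ x : List (Fin 3), x.IsRotated x.reverse → |N x| ≤ 1) ∧
  (∀ x y : List (Fin 3), |N (x ++ y) - N x - N y| ≤ 1) ∧ ∀ x : List (Fin 3), |N x| ≤ x.length

/-- The position of a factor in a product of blocks. -/
def INF : Prop := ∀ (A B : Type) (X : A → List B) (s : List A) (t : List B), t <:+: ext X s →
  (∃ a ∈ s, t <:+: X a) ∨ ∃ (t1 t2 : List B) (s' : List A), t = t1 ++ ext X s' ++ t2 ∧
    s'.length ≤ s.length ∧ (t1 = [] ∨ ∃ a, t1 <:+ X a) ∧ (t2 = [] ∨ ∃ a, t2 <+: X a)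

/-- The word `u0` is a primitive morphic word. -/
def PM : Prop := PrimitiveMorphic u0

/-- The word `u0` is palindromic. -/
def PAL0 : Prop := {s : List (Fin 3) | s ∈ Lang u0 ∧ s.reverse = s}.Infinite

/-- The words `w_m`. -/
def WM : Prop := ∀ m, W m ∈ Lang u0 ∧ (W m).length = 3 * 4 ^ m ∧ N (W m) = 2 ^ m

end Pool.Agent.N554.HVZ
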