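import Pool.Agent.N554.HVZ.Main

set_option autoImplicit false

namespace Pool.Agent.N554.HVZ

open Pool.Agent.N554.HKS (ext seg Lang FixedPoint Primitive ext_append seg_length seg_append
  iter_prefix iter_nil)

/-- `φ` is growing: the lengths of the words `φ^n(a)` are unbounded for every letter `a`. -/
def Growing {A : Type*} (φ : A → List A) : Prop :=
  ∀ (a : A) (L : ℕ), ∃ n, L ≤ ((ext φ)^[n] [a]).length

lemma eq_replicate_of_subsingleton {A : Type} [Subsingleton A] (a : A) (s : List A) :
    s = List.replicate s.length a :=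
  List.eq_replicate_iff.mpr ⟨rfl, fun b _ => Subsingleton.elim b a⟩

/-- The case of one letter. -/
theorem one_letter (hROT : ROT) (hNL : NL) (hI : INF) (hWM : WM) {A : Type} [Subsingleton A]
    (ψ : A → List (Fin 3)) (hψ : ConjClassP ψ) (v : ℕ → A)
    (hL : ∀ m, W m ∈ LangImage ψ v) : False := by
  set a := v 0 with ha
  have hcl : ∀ j : ℕ, ConjClassP (fun _ : A => List.replicate j a) := by
    intro j
    refine ⟨fun _ => List.replicate j a, ⟨[], Or.inl (by simp)⟩, [], rfl, ?_⟩
    intro b
    simp
  have hrep : ∀ s : List A, |N (ext ψ s)| ≤ 1 := by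
    intro s
    have h := hNL.1 _ (hROT A (Fin 3) (fun _ => List.replicate s.length a) ψ (hcl s.length) hψ 1 a)
    rw [F_succ, ← ext_iter, Function.iterate_zero, id, ← eq_replicate_of_subsingleton a s] at h
    exact h
  set K := (ψ a).length with hK
  have hb : ∀ b : A, (ψ b).length = K := by
    intro b
    rw [Subsingleton.elim b a]
  have hbound : ∀ w ∈ LangImage ψ v, |N w| ≤ 2 * K + 3 := by
    rintro w ⟨r, hr⟩
    rcases hI _ _ _ _ _ hr with ⟨b, -, h⟩ | ⟨t1, t2, s', rfl, hs, ht1, ht2⟩
    · have h1 := hNL.2.2 w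
      have h2 : w.length ≤ K := h.length_le.trans (hb b).le
      have h3 : (w.length : ℤ) ≤ K := by exact_mod_cast h2
      linarith
    · have h1 := hNL.2.1 t1 (ext ψ s')
      have h1' := hNL.2.1 (t1 ++ ext ψ s') t2
      have h2 := hrep s'
      have h4 : |N t1| ≤ K := by
        rcases ht1 with rfl | ⟨b, h⟩
        · rw [N_nil, abs_zero]; positivity
        · have h1 := hNL.2.2 t1
          have h2 : t1.length ≤ K := h.length_le.trans (hb b).le
          have h3 : (t1.length : ℤ) ≤ K := by exact_mod_cast h2
          linarith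
      have h5 : |N t2| ≤ K := by
        rcases ht2 with rfl | ⟨b, h⟩
        · rw [N_nil, abs_zero]; positivity
        · have h1 := hNL.2.2 t2
          have h2 : t2.length ≤ K := h.length_le.trans (hb b).le
          have h3 : (t2.length : ℤ) ≤ K := by exact_mod_cast h2
          linarith
      rw [abs_le] at *
      constructor <;> linarith [h1.1, h1.2, h1'.1, h1'.2, h2.1, h2.2, h4.1, h4.2, h5.1, h5.2]
  obtain ⟨m, hm⟩ := pow_big 0 (2 * K + 3)
  have h := hbound _ (hL m)
  rw [(hWM m).2.2, abs_of_nonneg (by positivity)] at h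
  have h' : ((0 * m + (2 * K + 3) : ℕ) : ℤ) < 2 ^ m := by exact_mod_cast hm
  push_cast at h'
  linarith

theorem no_class (hROT : ROT) (hNL : NL) (hI : INF) (hWM : WM) (A : Type) [Finite A]
    (φ : A → List A) (ψ : A → List (Fin 3)) (v : ℕ → A) (hφ : ConjClassP φ) (hψ : ConjClassP ψ)
    (hfix : FixedPoint φ v) (hc : Primitive φ ∨ (Growing φ ∧ ∀ a, ψ a ≠ [])) :
    ¬ Lang u0 ⊆ LangImage ψ v := by
  intro hLL
  have hL : ∀ m, W m ∈ LangImage ψ v := fun m => hLL (hWM m).1
  have hF : ∀ n a, |N (F φ ψ n a)| ≤ 1 := fun n a => hNL.1 _ (hROT A (Fin 3) φ ψ hφ hψ n a)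
  rcases hc with ⟨k, hk, hk'⟩ | ⟨hgrow, hne⟩
  · by_cases hs : Subsingleton A
    · exact one_letter hROT hNL hI hWM ψ hψ v hL
    · rw [not_subsingleton_iff_nontrivial] at hs
      obtain ⟨x, y, hxy⟩ := hs
      have hb : ∃ b, ψ b ≠ [] := by
        by_contra hcon
        push Not at hcon
        obtain ⟨r, hr⟩ := hL 0
        have h1 : ext ψ (seg v 0 r) = [] := by simp [ext, hcon]
        rw [h1] at hr
        have h2 := (hWM 0).2.1
        rw [List.infix_nil.mp hr] at h2
        simp at h2
      obtain ⟨b, hb⟩ := hb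
      refine growing_case φ ψ hNL hI hWM v hfix hF k k ?_ ?_ hL
      · intro a
        by_contra hlt
        have hlen : ((ext φ)^[k] [a]).length ≤ 1 := by omega
        obtain ⟨z, hz⟩ : ∃ z, (ext φ)^[k] [a] = [z] := by
          have h1 := List.length_pos_of_mem (hk' a x)
          exact List.length_eq_one_iff.mp (by omega)
        have h1 := hk' a x
        have h2 := hk' a y
        rw [hz, List.mem_singleton] at h1 h2
        exact hxy (h1.trans h2.symm)
      · intro a h
        have h1 := hk' a b
        have h2 : ψ b = [] := by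
          rw [F, ext, List.flatMap_eq_nil_iff] at h
          exact h b h1
        exact hb h2
  · have hφne : ∀ a, φ a ≠ [] := by
      intro a h
      obtain ⟨n, hn⟩ := hgrow a 2
      cases n with
      | zero => simp at hn
      | succ n =>
        rw [Function.iterate_succ_apply, ext_single, h, iter_nil] at hn
        simp at hn
    choose n hn using fun a => hgrow a 2
    have := Fintype.ofFinite A
    refine growing_case φ ψ hNL hI hWM v hfix hF (Finset.univ.sup n) 0 ?_ ?_ hL
    · intro a
      have h1 : n a ≤ Finset.univ.sup n := Finset.le_sup (Finset.mem_univ a)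
      obtain ⟨e, he⟩ := Nat.exists_eq_add_of_le h1
      rw [he, Nat.add_comm, Function.iterate_add_apply]
      exact (hn a).trans (iter_length φ hφne e _)
    · intro a
      rw [F_zero]
      exact hne a

end Pool.Agent.N554.HVZ
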