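import Pool.Agent.N554.HVZ.Def
import Pool.Agent.N554.HKS.Final

set_option autoImplicit false

namespace Pool.Agent.N554.HVZ

open Pool.Agent.N554.HKS (ext seg Lang FixedPoint Primitive ext_append seg_length seg_append
  iter_prefix)

/-! ### Iterates -/

lemma ext_cons {A B : Type} (f : A → List B) (a : A) (s : List A) :
    ext f (a :: s) = f a ++ ext f s := by
  simp [ext]

lemma ext_single {A B : Type} (f : A → List B) (a : A) : ext f [a] = f a := by
  simp [ext]

lemma iter_append {A : Type} (φ : A → List A) (k : ℕ) (x y : List A) :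
    (ext φ)^[k] (x ++ y) = (ext φ)^[k] x ++ (ext φ)^[k] y := by
  induction k generalizing x y with
  | zero => rfl
  | succ k ih => rw [Function.iterate_succ_apply, ext_append, ih]; rfl

lemma ext_iter {A B : Type} (φ : A → List A) (ψ : A → List B) (n : ℕ) (s : List A) :
    ext ψ ((ext φ)^[n] s) = ext (F φ ψ n) s := by
  induction s with
  | nil =>
    rw [HKS.iter_nil]
    rfl
  | cons a s ih =>
    have h : (a :: s) = [a] ++ s := rfl
    rw [h, iter_append, ext_append, ih, ← h, ext_cons]
    rfl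

lemma F_succ {A B : Type} (φ : A → List A) (ψ : A → List B) (n : ℕ) (a : A) :
    F φ ψ (n + 1) a = ext (F φ ψ n) (φ a) := by
  rw [← ext_iter, F, Function.iterate_succ_apply, ext_single]

lemma F_zero {A B : Type} (φ : A → List A) (ψ : A → List B) (a : A) : F φ ψ 0 a = ψ a := by
  rw [F, Function.iterate_zero, id, ext_single]

/-! ### Prefixes and suffixes of products -/

lemma prefix_ext {A B : Type} (X : A → List B) (s : List A) (t : List B) (h : t <+: ext X s) :
    ∃ (s' : List A) (t2 : List B), t = ext X s' ++ t2 ∧ s'.length ≤ s.length ∧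
      (t2 = [] ∨ ∃ a, t2 <+: X a) := by
  induction s generalizing t with
  | nil =>
    refine ⟨[], [], ?_, le_rfl, Or.inl rfl⟩
    simpa [ext] using h
  | cons a s ih =>
    rw [ext_cons] at h
    rcases List.prefix_or_prefix_of_prefix h (List.prefix_append (X a) (ext X s)) with h1 | h1
    · exact ⟨[], t, by simp [ext], by simp, Or.inr ⟨a, h1⟩⟩
    · obtain ⟨t', rfl⟩ := h1
      have h2 : t' <+: ext X s := (List.prefix_append_right_inj _).mp h
      obtain ⟨s', t2, h3, h4, h5⟩ := ih t' h2
      refine ⟨a :: s', t2, ?_, by simpa using h4, h5⟩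
      rw [h3, ext_cons, List.append_assoc]

lemma suffix_ext {A B : Type} (X : A → List B) (s : List A) (t : List B) (h : t <:+ ext X s) :
    ∃ (s' : List A) (t1 : List B), t = t1 ++ ext X s' ∧ s'.length ≤ s.length ∧
      (t1 = [] ∨ ∃ a, t1 <:+ X a) := by
  induction s using List.reverseRecOn generalizing t with
  | nil =>
    refine ⟨[], [], ?_, le_rfl, Or.inl rfl⟩
    simpa [ext] using h
  | append_singleton s a ih =>
    rw [ext_append, ext_single] at h
    rcases List.suffix_or_suffix_of_suffix h (List.suffix_append (ext X s) (X a)) with h1 | h1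
    · exact ⟨[], t, by simp [ext], by simp, Or.inr ⟨a, h1⟩⟩
    · obtain ⟨t', rfl⟩ := h1
      have h2 : t' <:+ ext X s := by
        obtain ⟨e, he⟩ := h
        refine ⟨e, ?_⟩
        rw [← List.append_assoc] at he
        exact List.append_cancel_right he
      obtain ⟨s', t1, h3, h4, h5⟩ := ih t' h2
      refine ⟨s' ++ [a], t1, ?_, by simpa using h4, h5⟩
      rw [h3, ext_append, ext_single, List.append_assoc]

/-! ### The discrepancy of factors -/

section
variable {A : Type} (φ : A → List A) (ψ : A → List (Fin 3))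

lemma N_nil : N [] = 0 := rfl

lemma N_ext (hNL : NL) (X : A → List (Fin 3)) (hX : ∀ a, |N (X a)| ≤ 1) (s : List A) :
    |N (ext X s)| ≤ 2 * s.length := by
  induction s with
  | nil => simp [ext, N_nil]
  | cons a s ih =>
    rw [ext_cons]
    have h1 := hNL.2.1 (X a) (ext X s)
    have h2 := hX a
    rw [abs_le] at *
    push_cast [List.length_cons]
    constructor <;> linarith [h1.1, h1.2, h2.1, h2.2, ih.1, ih.2]

lemma P_bound (hNL : NL) (hF : ∀ n a, |N (F φ ψ n a)| ≤ 1) (M K : ℕ)
    (hM : ∀ a, (φ a).length ≤ M) (hK : ∀ a, (ψ a).length ≤ K) (n : ℕ) (a : A)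
    (t : List (Fin 3)) (h : t <+: F φ ψ n a) : |N t| ≤ K + n * (2 * M + 1) := by
  induction n generalizing a t with
  | zero =>
    rw [F_zero] at h
    have h1 := hNL.2.2 t
    have h2 : t.length ≤ K := h.length_le.trans (hK a)
    have h3 : (t.length : ℤ) ≤ K := by exact_mod_cast h2
    push_cast
    linarith
  | succ n ih =>
    rw [F_succ] at h
    obtain ⟨s', t2, rfl, hs, ht⟩ := prefix_ext _ _ _ h
    have h1 := hNL.2.1 (ext (F φ ψ n) s') t2
    have h2 := N_ext hNL (F φ ψ n) (hF n) s'
    have h3 : (s'.length : ℤ) ≤ M := by exact_mod_cast hs.trans (hM a)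
    have h4 : |N t2| ≤ K + n * (2 * M + 1) := by
      rcases ht with rfl | ⟨b, hb⟩
      · rw [N_nil, abs_zero]; positivity
      · exact ih b t2 hb
    rw [abs_le] at *
    push_cast at *
    constructor <;> nlinarith [h1.1, h1.2, h2.1, h2.2, h4.1, h4.2]

lemma S_bound (hNL : NL) (hF : ∀ n a, |N (F φ ψ n a)| ≤ 1) (M K : ℕ)
    (hM : ∀ a, (φ a).length ≤ M) (hK : ∀ a, (ψ a).length ≤ K) (n : ℕ) (a : A)
    (t : List (Fin 3)) (h : t <:+ F φ ψ n a) : |N t| ≤ K + n * (2 * M + 1) := by
  induction n generalizing a t with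
  | zero =>
    rw [F_zero] at h
    have h1 := hNL.2.2 t
    have h2 : t.length ≤ K := h.length_le.trans (hK a)
    have h3 : (t.length : ℤ) ≤ K := by exact_mod_cast h2
    push_cast
    linarith
  | succ n ih =>
    rw [F_succ] at h
    obtain ⟨s', t1, rfl, hs, ht⟩ := suffix_ext _ _ _ h
    have h1 := hNL.2.1 t1 (ext (F φ ψ n) s')
    have h2 := N_ext hNL (F φ ψ n) (hF n) s'
    have h3 : (s'.length : ℤ) ≤ M := by exact_mod_cast hs.trans (hM a)
    have h4 : |N t1| ≤ K + n * (2 * M + 1) := by
      rcases ht with rfl | ⟨b, hb⟩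
      · rw [N_nil, abs_zero]; positivity
      · exact ih b t1 hb
    rw [abs_le] at *
    push_cast at *
    constructor <;> nlinarith [h1.1, h1.2, h2.1, h2.2, h4.1, h4.2]

lemma D_bound (hNL : NL) (hI : INF) (hF : ∀ n a, |N (F φ ψ n a)| ≤ 1) (M K : ℕ)
    (hM : ∀ a, (φ a).length ≤ M) (hK : ∀ a, (ψ a).length ≤ K) (n : ℕ) (a : A)
    (t : List (Fin 3)) (h : t <:+: F φ ψ n a) :
    |N t| ≤ 2 * (K + n * (2 * M + 1)) + 2 * M + 2 := by
  induction n generalizing a t with
  | zero =>
    rw [F_zero] at h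
    have h1 := hNL.2.2 t
    have h2 : t.length ≤ K := h.length_le.trans (hK a)
    have h3 : (t.length : ℤ) ≤ K := by exact_mod_cast h2
    push_cast
    linarith
  | succ n ih =>
    rw [F_succ] at h
    rcases hI _ _ _ _ _ h with ⟨b, -, hb⟩ | ⟨t1, t2, s', rfl, hs, ht1, ht2⟩
    · have := ih b t hb
      push_cast at *
      nlinarith
    · have h1 := hNL.2.1 t1 (ext (F φ ψ n) s')
      have h1' := hNL.2.1 (t1 ++ ext (F φ ψ n) s') t2
      have h2 := N_ext hNL (F φ ψ n) (hF n) s'
      have h3 : (s'.length : ℤ) ≤ M := by exact_mod_cast hs.trans (hM a)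
      have h4 : |N t1| ≤ K + n * (2 * M + 1) := by
        rcases ht1 with rfl | ⟨b, hb⟩
        · rw [N_nil, abs_zero]; positivity
        · exact S_bound φ ψ hNL hF M K hM hK n b t1 hb
      have h5 : |N t2| ≤ K + n * (2 * M + 1) := by
        rcases ht2 with rfl | ⟨b, hb⟩
        · rw [N_nil, abs_zero]; positivity
        · exact P_bound φ ψ hNL hF M K hM hK n b t2 hb
      rw [abs_le] at *
      push_cast at *
      constructor <;> nlinarith [h1.1, h1.2, h1'.1, h1'.2, h2.1, h2.2, h4.1, h4.2, h5.1, h5.2]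

/-! ### Growth -/

lemma iter_length (hne : ∀ a, φ a ≠ []) (n : ℕ) (s : List A) :
    s.length ≤ ((ext φ)^[n] s).length := by
  induction n generalizing s with
  | zero => exact le_rfl
  | succ n ih =>
    rw [Function.iterate_succ_apply]
    refine le_trans ?_ (ih _)
    induction s with
    | nil => simp
    | cons a s ihs =>
      rw [ext_cons, List.length_append, List.length_cons]
      have := List.length_pos_iff.mpr (hne a)
      omega

lemma iter_length_ge {T : ℕ} (hT : ∀ a, 2 ≤ ((ext φ)^[T] [a]).length) (s : List A) :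
    2 * s.length ≤ ((ext φ)^[T] s).length := by
  induction s with
  | nil => simp
  | cons a s ih =>
    have h : (a :: s) = [a] ++ s := rfl
    rw [h, iter_append, List.length_append, List.length_append]
    have := hT a
    simp only [List.length_singleton]
    omega

lemma iter_length_pow {T : ℕ} (hT : ∀ a, 2 ≤ ((ext φ)^[T] [a]).length) (j : ℕ) (a : A) :
    2 ^ j ≤ ((ext φ)^[T * j] [a]).length := by
  induction j with
  | zero => simp
  | succ j ih =>
    have h : T * (j + 1) = T + T * j := by ring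
    rw [h, Function.iterate_add_apply]
    have := iter_length_ge φ hT ((ext φ)^[T * j] [a])
    rw [pow_succ]
    omega

lemma ext_length_ge {B : Type} (X : A → List B) (hX : ∀ a, X a ≠ []) (s : List A) :
    s.length ≤ (ext X s).length := by
  induction s with
  | nil => simp
  | cons a s ih =>
    rw [ext_cons, List.length_append, List.length_cons]
    have := List.length_pos_iff.mpr (hX a)
    omega

lemma F_length {T n0 : ℕ} (hT : ∀ a, 2 ≤ ((ext φ)^[T] [a]).length)
    (h0 : ∀ a, F φ ψ n0 a ≠ []) (j : ℕ) (a : A) : 2 ^ j ≤ (F φ ψ (n0 + T * j) a).length := by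
  have h : F φ ψ (n0 + T * j) a = ext (F φ ψ n0) ((ext φ)^[T * j] [a]) := by
    rw [← ext_iter, F, Function.iterate_add_apply]
  rw [h]
  exact (iter_length_pow φ hT j a).trans (ext_length_ge _ h0 _)

lemma nonerasing_of {T : ℕ} (hT : ∀ a, 2 ≤ ((ext φ)^[T] [a]).length) (a : A) : φ a ≠ [] := by
  intro h
  cases T with
  | zero =>
    have := hT a
    simp at this
  | succ T =>
    have := hT a
    rw [Function.iterate_succ_apply, ext_single, h, HKS.iter_nil] at this
    simp at this

lemma pow_big (α β : ℕ) : ∃ m : ℕ, α * m + β < 2 ^ m := by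
  set k := 2 * α + β + 1 with hk
  refine ⟨2 * k, ?_⟩
  have h1 : k < 2 ^ k := Nat.lt_two_pow_self
  have h2 : 2 ^ (2 * k) = 2 ^ k * 2 ^ k := by rw [two_mul, pow_add]
  rw [h2]
  have h3 : k * k ≤ 2 ^ k * 2 ^ k := Nat.mul_le_mul h1.le h1.le
  have h4 : α * (2 * k) + β < k * k := by
    nlinarith
  omega

/-- The main estimate. -/
theorem main_bound (hNL : NL) (hI : INF) (v : ℕ → A) (hfix : FixedPoint φ v)
    (hF : ∀ n a, |N (F φ ψ n a)| ≤ 1) (M K : ℕ)
    (hM : ∀ a, (φ a).length ≤ M) (hK : ∀ a, (ψ a).length ≤ K) (hne : ∀ a, φ a ≠ [])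
    (w : List (Fin 3)) (hw : w ∈ LangImage ψ v) (n : ℕ)
    (hn : ∀ a, w.length < (F φ ψ n a).length) :
    |N w| ≤ 2 * (K + n * (2 * M + 1)) + 2 * M + 2 := by
  obtain ⟨r, hr⟩ := hw
  have h1 : w <:+: ext (F φ ψ n) (seg v 0 r) := by
    rw [← ext_iter]
    obtain ⟨m, hm⟩ := iter_prefix φ v hfix n r
    have hl := iter_length φ hne n (seg v 0 r)
    rw [hm, seg_length, seg_length] at hl
    rw [hm]
    obtain ⟨e, rfl⟩ := Nat.exists_eq_add_of_le hl
    rw [seg_append, ext_append]
    exact hr.trans (List.prefix_append _ _).isInfix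
  rcases hI _ _ _ _ _ h1 with ⟨b, -, hb⟩ | ⟨t1, t2, s', rfl, hs, ht1, ht2⟩
  · exact D_bound φ ψ hNL hI hF M K hM hK n b w hb
  · have hs' : s' = [] := by
      cases s' with
      | nil => rfl
      | cons b s' =>
        exfalso
        have := hn b
        rw [ext_cons] at this
        simp only [List.length_append] at this
        omega
    subst hs'
    have e1 : ext (F φ ψ n) [] = [] := rfl
    rw [e1, List.append_nil]
    have h1 := hNL.2.1 t1 t2
    have h4 : |N t1| ≤ K + n * (2 * M + 1) := by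
      rcases ht1 with rfl | ⟨b, hb⟩
      · rw [N_nil, abs_zero]; positivity
      · exact S_bound φ ψ hNL hF M K hM hK n b t1 hb
    have h5 : |N t2| ≤ K + n * (2 * M + 1) := by
      rcases ht2 with rfl | ⟨b, hb⟩
      · rw [N_nil, abs_zero]; positivity
      · exact P_bound φ ψ hNL hF M K hM hK n b t2 hb
    have h6 : (0 : ℤ) ≤ M := by positivity
    rw [abs_le] at *
    constructor <;> linarith [h1.1, h1.2, h4.1, h4.2, h5.1, h5.2]

/-- The general case: growing morphisms. -/
theorem growing_case (hNL : NL) (hI : INF) (hWM : WM) [Finite A] (v : ℕ → A)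
    (hfix : FixedPoint φ v) (hF : ∀ n a, |N (F φ ψ n a)| ≤ 1) (T n0 : ℕ)
    (hT : ∀ a, 2 ≤ ((ext φ)^[T] [a]).length) (h0 : ∀ a, F φ ψ n0 a ≠ [])
    (hL : ∀ m, W m ∈ LangImage ψ v) : False := by
  have := Fintype.ofFinite A
  set M := Finset.univ.sup (fun a => (φ a).length) with hMdef
  set K := Finset.univ.sup (fun a => (ψ a).length) with hKdef
  have hM : ∀ a, (φ a).length ≤ M := fun a => Finset.le_sup (f := fun a => (φ a).length)
    (Finset.mem_univ a)
  have hK : ∀ a, (ψ a).length ≤ K := fun a => Finset.le_sup (f := fun a => (ψ a).length)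
    (Finset.mem_univ a)
  have key : ∀ m : ℕ, (2 : ℤ) ^ m ≤
      2 * (K + (n0 + T * (2 * m + 2) : ℕ) * (2 * M + 1)) + 2 * M + 2 := by
    intro m
    obtain ⟨-, hlen, hN⟩ := hWM m
    have hn : ∀ a, (W m).length < (F φ ψ (n0 + T * (2 * m + 2)) a).length := by
      intro a
      have := F_length φ ψ hT h0 (2 * m + 2) a
      have h4 : 2 ^ (2 * m + 2) = 4 * 4 ^ m := by
        rw [pow_add, pow_mul]; norm_num; ring
      rw [h4] at this
      rw [hlen]
      have : 0 < 4 ^ m := by positivity
      omega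
    have := main_bound φ ψ hNL hI v hfix hF M K hM hK (nonerasing_of φ hT) (W m) (hL m) _ hn
    rw [hN, abs_of_nonneg (by positivity)] at this
    exact this
  obtain ⟨m, hm⟩ := pow_big (2 * (2 * T) * (2 * M + 1))
    (2 * (K + (n0 + 2 * T) * (2 * M + 1)) + 2 * M + 2)
  have h := key m
  have h' : ((2 * (2 * T) * (2 * M + 1) * m + (2 * (K + (n0 + 2 * T) * (2 * M + 1)) + 2 * M + 2) :
      ℕ) : ℤ) < 2 ^ m := by exact_mod_cast hm
  push_cast at h h'
  nlinarith

end

end Pool.Agent.N554.HVZ
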