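import Pool.Agent.N554.HVZ.Final
import Pool.Agent.N49.HVZ.ROT
import Pool.Agent.N234.HVZ.PM
import Pool.Agent.N271.HVZ.WM
import Pool.Agent.N519.HVZ.PAL0
import Pool.Agent.N736.HVZ.INF
import Pool.Agent.N854.HVZ.NL

/-!
# A negative answer to Q2: palindromic primitive morphic words and class `P`

Let `d` be the fixed point of `0 → 0001`, `1 → 0111` and `u0 = μ(d)` with `μ(0) = abc` and
`μ(1) = cba`. The word `u0` is primitive morphic and has infinitely many palindromic factors. The
number of occurrences of `ab` minus the number of occurrences of `ba` is `2 ^ m` in the factor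
`μ(φ₀^m(0))` of length `3 * 4 ^ m`. In an infinite word `ψ(v)`, where `v` is fixed by `φ` and both
`φ` and `ψ` are conjugate to morphisms in class `P`, the words `ψ(φ^n(a))` are rotations of their
reversals, so that this difference is at most `1` in absolute value for them, and therefore
`O(log L)` for all factors of length `L`.
-/

set_option autoImplicit false

namespace Pool.Agent.N554.HVZ.WeakClassP

open Pool.Agent.N554.HVZ
open Pool.Agent.N554.HKS (ext seg Lang FixedPoint Primitive)

/-- The statement asked for in Q2 (for primitive `φ`): if `u` is a palindromic primitive morphic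
word, then there are morphisms `φ`, `ψ`, each conjugate to a morphism in class `P`, and an infinite
word `v` with `φ(v) = v` such that `u` and `ψ(v)` have the same language. -/
def HarjuVestiZamboni : Prop :=
  ∀ (B : Type) [Finite B] (u : ℕ → B), PrimitiveMorphic u →
    {s : List B | s ∈ Lang u ∧ s.reverse = s}.Infinite →
    ∃ (A : Type) (_ : Finite A) (φ : A → List A) (ψ : A → List B) (v : ℕ → A),
      Primitive φ ∧ ConjClassP φ ∧ ConjClassP ψ ∧ FixedPoint φ v ∧ LangImage ψ v = Lang u

/-- The statement of Q2 is false: the primitive morphic word `u0` is palindromic, but its language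
is not contained in the language of any word `ψ(v)` with `φ(v) = v` and `φ`, `ψ` conjugate to
morphisms in class `P`, where `φ` is primitive, or `φ` is growing and `ψ` is non-erasing. -/
theorem result :
    ¬ HarjuVestiZamboni ∧
    PrimitiveMorphic u0 ∧
    {s : List (Fin 3) | s ∈ Lang u0 ∧ s.reverse = s}.Infinite ∧
    ∀ (A : Type) [Finite A] (φ : A → List A) (ψ : A → List (Fin 3)) (v : ℕ → A),
      ConjClassP φ → ConjClassP ψ → FixedPoint φ v →
      (Primitive φ ∨ (Growing φ ∧ ∀ a, ψ a ≠ [])) → ¬ Lang u0 ⊆ LangImage ψ v := by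
  have h4 := no_class Pool.Agent.N49.HVZ.ROT_proof Pool.Agent.N854.HVZ.NL_proof
    Pool.Agent.N736.HVZ.INF_proof Pool.Agent.N271.HVZ.WM_proof
  refine ⟨?_, Pool.Agent.N234.HVZ.PM_proof, Pool.Agent.N519.HVZ.PAL0.PAL0_proof, ?_⟩
  · intro h
    obtain ⟨A, hA, φ, ψ, v, hprim, hφ, hψ, hfix, hL⟩ :=
      h (Fin 3) u0 Pool.Agent.N234.HVZ.PM_proof Pool.Agent.N519.HVZ.PAL0.PAL0_proof
    exact h4 A φ ψ v hφ hψ hfix (Or.inl hprim) hL.ge
  · intro A _ φ ψ v hφ hψ hfix hc
    exact h4 A φ ψ v hφ hψ hfix hc

end Pool.Agent.N554.HVZ.WeakClassP
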